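import Pool.Agent.Helper867_Rae.Step
import Pool.Agent.TH777.J736
import Pool.Agent.TH365.J735
import Pool.Agent.TH350.J733

set_option autoImplicit false

/-! Section 7: reduction from `p`-soluble to soluble groups (`S_M`). -/

namespace Pool.Agent.Helper736_Rae

open Pool.Agent.TH62.PL Pool.Agent.Helper867_Rae
open scoped commutatorElement

/-! ### preliminaries -/

section prelim
variable {G : Type} [Group G] {p : ℕ}

lemma FL.mono_n {π : Set ℕ} {n m : ℕ} {N : Subgroup G} (h : FL π n N) (hnm : n ≤ m) :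
    FL π m N := by
  obtain ⟨Z, h1, h2, h3, h4⟩ := h
  exact ⟨Z, h1, h2, h3, h4.mono_n hnm⟩

lemma FL.inj {π : Set ℕ} {H : Type} [Group H] (f : H →* G) (hf : Function.Injective f) {n : ℕ}
    (h : FL π n (⊥ : Subgroup G)) : FL π n (⊥ : Subgroup H) := by
  have h1 := h.comap f
  rwa [MonoidHom.comap_bot, (MonoidHom.ker_eq_bot_iff f).2 hf] at h1

lemma Len.inj {π : Set ℕ} {H : Type} [Group H] (f : H →* G) (hf : Function.Injective f) {n : ℕ}
    (h : Len π n (⊥ : Subgroup G)) : Len π n (⊥ : Subgroup H) := by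
  have h1 := h.comap f
  rwa [MonoidHom.comap_bot, (MonoidHom.ker_eq_bot_iff f).2 hf] at h1

/-- the normal series given by `Len` -/
lemma psol_of_len {n : ℕ} : ∀ {N : Subgroup G}, N.Normal → Len {p} n N →
    ∃ (m : ℕ) (S : ℕ → Subgroup G), S 0 = N ∧ S m = ⊤ ∧ (∀ i, S i ≤ S (i + 1)) ∧
      (∀ i, (S i).Normal) ∧
      ∀ i < m, PF {p}ᶜ (S i) (S (i + 1)) ∨ ∃ q ∈ ({p} : Set ℕ), PF {q} (S i) (S (i + 1)) := by
  induction n with
  | zero =>
    intro N hN h
    refine ⟨1, fun i => if i = 0 then N else ⊤, by simp, by simp, ?_, ?_, ?_⟩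
    · intro i
      simp
    · intro i
      dsimp only
      split_ifs
      · exact hN
      · infer_instance
    · intro i hi
      have : i = 0 := by omega
      subst this
      left
      exact h
  | succ n ih =>
    rintro N hN ⟨A, B, hA, hB, hNA, hAB, h1, h2, h3⟩
    obtain ⟨m, T, hT0, hTm, hTle, hTn, hTF⟩ := ih hB h3
    refine ⟨m + 2, fun i => match i with
      | 0 => N
      | 1 => A
      | (i + 2) => T i, rfl, hTm, ?_, ?_, ?_⟩
    · intro i
      match i with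
      | 0 => exact hNA
      | 1 => change A ≤ T 0; rw [hT0]; exact hAB
      | (i + 2) => exact hTle i
    · intro i
      match i with
      | 0 => exact hN
      | 1 => exact hA
      | (i + 2) => exact hTn i
    · intro i hi
      match i with
      | 0 => exact Or.inl h1
      | 1 =>
        right
        refine ⟨p, rfl, ?_⟩
        change PF {p} A (T 0)
        rw [hT0]; exact h2
      | (i + 2) => exact hTF i (by omega)

lemma psol {n : ℕ} (h : Len {p} n (⊥ : Subgroup G)) : PSol {p} G := by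
  obtain ⟨m, S, h0, h1, h2, h3, h4⟩ := psol_of_len inferInstance h
  exact ⟨m, S, h0, h1, h2, h3, h4⟩

lemma comm_of_inv {P Q : Subgroup G} (h1 : Inv Q P) (h2 : Inv P Q) (hd : P ⊓ Q ≤ ⊥) :
    ∀ x ∈ P, ∀ y ∈ Q, x * y = y * x := by
  intro x hx y hy
  have h3 : x * y * x⁻¹ * y⁻¹ ∈ P ⊓ Q := by
    refine ⟨?_, Q.mul_mem (h2 x hx y hy) (Q.inv_mem hy)⟩
    have h4 : x * y * x⁻¹ * y⁻¹ = x * (y * x⁻¹ * y⁻¹) := by group
    rw [h4]
    exact P.mul_mem hx (h1 y hy _ (P.inv_mem hx))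
  have h5 := Subgroup.mem_bot.1 (hd h3)
  have h6 : x * y = (x * y * x⁻¹ * y⁻¹) * (y * x) := by group
  rw [h6, h5, one_mul]

lemma disj {σ : Set ℕ} {P Q : Subgroup G} (h1 : PF σ ⊥ P) (h2 : PF σᶜ ⊥ Q) : P ⊓ Q ≤ ⊥ :=
  PF.le_of_compl (σ := σ) (h1.mono le_rfl inf_le_left) (h2.mono le_rfl inf_le_right)

/-- `Q` contains a Sylow `r`-subgroup of `L` for all primes `r` -/
lemma le_of_sylow [Finite G] {L C : Subgroup G} {Q : ℕ → Subgroup G}
    (hQ : ∀ r : ℕ, r.Prime → ¬ r ∣ (Q r).relIndex L) (hC : ∀ r : ℕ, r.Prime → Q r ≤ C) : L ≤ C := by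
  rw [← Subgroup.relIndex_eq_one]
  by_contra hne
  obtain ⟨r, hr, hd⟩ := Nat.exists_prime_and_dvd hne
  exact hQ r hr (hd.trans (Subgroup.relIndex_dvd_of_le_left L (hC r hr)))

lemma solvable_sup [Finite G] {N R : Subgroup G} (hN : N.Normal) (hs : Group.IsSolvable N)
    {r : ℕ} (hr : r.Prime) (hR : PF {r} ⊥ R) : Group.IsSolvable (N ⊔ R : Subgroup G) := by
  have h1 : PF {r} N (N ⊔ R) := by
    have := hR.supN hN
    rw [bot_sup_eq] at this
    rwa [sup_comm]
  obtain ⟨n, hn⟩ := DS_le_of_PF hr hN h1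
  obtain ⟨m, hm⟩ := (isSolvable_iff_DS N).1 hs
  rw [isSolvable_iff_DS]
  refine ⟨n + m, ?_⟩
  rw [DS_add, eq_bot_iff, ← hm]
  exact DS.mono hn m

end prelim

/-- (HH) in the form used below -/
lemma hhq {p n : ℕ} {G : Type} [Group G] [Finite G] (h : Len {p} n (⊥ : Subgroup G))
    {M R : Subgroup G} (hM : M.Normal) (hR : R.Normal) (hMp : PF {p}ᶜ ⊥ M) (hRp : PF {p} ⊥ R)
    (hMmax : ∀ N : Subgroup G, N.Normal → PF {p}ᶜ ⊥ N → N ≤ M)
    (hRmax : ∀ N : Subgroup G, N.Normal → PF {p} ⊥ N → N ≤ R) :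
    ∀ x : G, (∀ y ∈ M ⊔ R, x * y = y * x) → x ∈ M ⊔ R :=
  Pool.Agent.TH777.J736.hh {p} G (psol h) M R hM hR hMp hRp hMmax hRmax

/-- the induction statement -/
def Mst (p : ℕ) (Z : Type) [Group Z] : Prop :=
  ∀ S : Subgroup Z, IsPGroup p S → ¬ p ∣ S.index →
    ∃ Y : Subgroup Z, S ≤ Y ∧ Group.IsSolvable Y ∧
      ∀ n, FL {p} n (⊥ : Subgroup Y) → FL {p} n (⊥ : Subgroup Z)

/-- case A: a proper subgroup with the same lengths -/
lemma caseA {p : ℕ} {Z : Type} [Group Z] [Finite Z] {S : Subgroup Z} (hS : IsPGroup p S)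
    (hSi : ¬ p ∣ S.index) (H : Subgroup Z) (hSH : S ≤ H) (ih : Mst p H)
    (hH : ∀ n, FL {p} n (⊥ : Subgroup H) → FL {p} n (⊥ : Subgroup Z)) :
    ∃ Y : Subgroup Z, S ≤ Y ∧ Group.IsSolvable Y ∧
      ∀ n, FL {p} n (⊥ : Subgroup Y) → FL {p} n (⊥ : Subgroup Z) := by
  obtain ⟨Y, hSY, hY, hYn⟩ := ih (S.subgroupOf H) hS.comap_subtype (fun h => hSi
    (h.trans (Subgroup.relIndex_dvd_index_of_le hSH)))
  let e : Y ≃* Y.map H.subtype := Y.equivMapOfInjective H.subtype H.subtype_injective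
  refine ⟨Y.map H.subtype, ?_, ?_, fun n hn => ?_⟩
  · intro x hx
    exact ⟨⟨x, hSH hx⟩, hSY hx, rfl⟩
  · have := hY
    exact Group.isSolvable_of_surjective (f := e.toMonoidHom) e.surjective
  · exact hH n (hYn n (FL.inj e.toMonoidHom e.injective hn))

/-- passing to `Z / N` -/
lemma quot_step {p : ℕ} {Z : Type} [Group Z] [Finite Z] {S : Subgroup Z}
    (hS : IsPGroup p S) (hSi : ¬ p ∣ S.index) (N : Subgroup Z) [hN : N.Normal]
    (ih : Mst p (Z ⧸ N)) :
    ∃ Y' : Subgroup (Z ⧸ N), S ≤ Y'.comap (QuotientGroup.mk' N) ∧ Group.IsSolvable Y' ∧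
      S.map (QuotientGroup.mk' N) ≤ Y' ∧
      ∀ n, FL {p} n (N.subgroupOf (Y'.comap (QuotientGroup.mk' N))) → FL {p} n N := by
  have hf : Function.Surjective (QuotientGroup.mk' N) := QuotientGroup.mk'_surjective N
  obtain ⟨Y', h1, h2, h3⟩ := ih (S.map (QuotientGroup.mk' N)) (hS.map _) (fun h => hSi
    (h.trans (Subgroup.index_map_dvd S hf)))
  refine ⟨Y', Subgroup.map_le_iff_le_comap.1 h1, h2, h1, fun n hn => ?_⟩
  have h4 : Function.Surjective ((QuotientGroup.mk' N).subgroupComap Y') := by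
    rintro ⟨t, ht⟩
    obtain ⟨x, rfl⟩ := hf t
    exact ⟨⟨x, ht⟩, rfl⟩
  have h5 := hn.map _ h4
  have h6 : (N.subgroupOf (Y'.comap (QuotientGroup.mk' N))).map
      ((QuotientGroup.mk' N).subgroupComap Y') = ⊥ := by
    rw [eq_bot_iff]
    rintro _ ⟨x, hx, rfl⟩
    rw [Subgroup.mem_bot]
    apply Subtype.ext
    exact (QuotientGroup.eq_one_iff (x : Z)).2 hx
  rw [h6] at h5
  have h7 := (h3 n h5).comap (QuotientGroup.mk' N)
  rwa [MonoidHom.comap_bot, QuotientGroup.ker_mk'] at h7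

lemma solvable_comap {Z : Type} [Group Z] (N : Subgroup Z) [hN : N.Normal]
    (hs : Group.IsSolvable N) {Y' : Subgroup (Z ⧸ N)} (hY' : Group.IsSolvable Y') :
    Group.IsSolvable (Y'.comap (QuotientGroup.mk' N)) := by
  have hle : N ≤ Y'.comap (QuotientGroup.mk' N) := by
    intro x hx
    have : (QuotientGroup.mk' N) x = 1 := (QuotientGroup.eq_one_iff x).2 hx
    rw [Subgroup.mem_comap, this]; exact Y'.one_mem
  refine Group.isSolvable_of_ker_le_range (Subgroup.inclusion hle)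
    ((QuotientGroup.mk' N).subgroupComap Y') ?_
  intro x hx
  have h1 : ((QuotientGroup.mk' N) (x : Z)) = 1 := congrArg Subtype.val (MonoidHom.mem_ker.1 hx)
  have h2 : (x : Z) ∈ N := (QuotientGroup.eq_one_iff (x : Z)).1 h1
  exact ⟨⟨x, h2⟩, rfl⟩

/-- the preimage `Y₁` of the group given by induction for `Z / O_{p'}(Z)` -/
lemma claimY {p n0 : ℕ} [hp : Fact p.Prime] {Z : Type} [Group Z] [Finite Z]
    (hlen : Len {p} n0 (⊥ : Subgroup Z)) {S : Subgroup Z}
    (hS : IsPGroup p S) (hSi : ¬ p ∣ S.index) (L : Subgroup Z) [hL : L.Normal]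
    (hLp : PF {p}ᶜ ⊥ L) (hLmax : ∀ A : Subgroup Z, A.Normal → PF {p}ᶜ ⊥ A → A ≤ L)
    (hCL : ∀ x : Z, (∀ y ∈ L, x * y = y * x) → x ∈ L)
    (Y' : Subgroup (Z ⧸ L)) (hSY : S ≤ Y'.comap (QuotientGroup.mk' L))
    (hSY' : S.map (QuotientGroup.mk' L) ≤ Y')
    (hY' : ∀ n, FL {p} n (L.subgroupOf (Y'.comap (QuotientGroup.mk' L))) → FL {p} n L) (n : ℕ)
    (hn : FL {p} n (⊥ : Subgroup (Y'.comap (QuotientGroup.mk' L)))) :
    FL {p} n (⊥ : Subgroup Z) := by
  have hHall : IsHall {p} S :=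
    ⟨PF_of_isPGroup hS, PN_compl hp.out Subgroup.index_ne_zero_of_finite hSi⟩
  have hf : Function.Surjective (QuotientGroup.mk' L) := QuotientGroup.mk'_surjective L
  set Y := Y'.comap (QuotientGroup.mk' L) with hY
  have hLY : L ≤ Y := by
    intro x hx
    have : (QuotientGroup.mk' L) x = 1 := (QuotientGroup.eq_one_iff x).2 hx
    rw [hY, Subgroup.mem_comap, this]; exact Y'.one_mem
  have hLn : (L.subgroupOf Y).Normal := hL.comap _
  have hLYp : PF {p}ᶜ ⊥ (L.subgroupOf Y) := by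
    have h1 := hLp.comap Y.subtype
    rwa [MonoidHom.comap_bot, Subgroup.ker_subtype] at h1
  obtain ⟨Z₀, hZ₀, -, hZ₀p, hZ₀len⟩ := hn
  have hZ₀bot : Z₀ ≤ ⊥ := by
    have h1 : ∀ x ∈ Z₀, ∀ y ∈ L.subgroupOf Y, x * y = y * x :=
      comm_of_inv (Inv.of_normal _ hZ₀) (Inv.of_normal _ hLn) (disj hZ₀p hLYp)
    intro x hx
    have h2 : (x : Z) ∈ L := by
      apply hCL
      intro y hy
      have h3 := h1 x hx ⟨y, hLY hy⟩ hy
      exact congrArg Subtype.val h3
    exact disj hZ₀p hLYp ⟨hx, h2⟩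
  have hlenY : Len {p} n (⊥ : Subgroup Y) := by
    have : Z₀ = ⊥ := le_bot_iff.1 hZ₀bot
    rwa [this] at hZ₀len
  rcases n with _ | n
  · -- `n = 0`
    have hSbot : S ≤ ⊥ := by
      refine PF.le_of_compl (σ := {p}) (PF_of_isPGroup hS) ?_
      intro x hx
      obtain ⟨m, hm, hm'⟩ := hlenY (⟨x, hSY hx⟩ : Y) trivial
      exact ⟨m, hm, by
        have := congrArg Subtype.val (Subgroup.mem_bot.1 hm')
        rw [Subgroup.mem_bot]
        simpa using this⟩
    refine ⟨⊥, inferInstance, le_rfl, PF.refl _, ?_⟩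
    exact hHall.PF_inf inferInstance (Inv.bot _) (inf_le_left.trans hSbot)
  · obtain ⟨A, B, hA, hB, -, hAB, hAp, hBp, hBlen⟩ := hlenY
    -- `A ≤ L`
    obtain ⟨R, hR, -, hRp, hRmax⟩ := exists_core {p} (⊥ : Subgroup (Z ⧸ L)) inferInstance
    have hlenQ : Len {p} n0 (⊥ : Subgroup (Z ⧸ L)) := by
      have h1 := hlen.map _ hf
      rwa [Subgroup.map_bot] at h1
    have hQ : ∀ N : Subgroup (Z ⧸ L), N.Normal → PF {p}ᶜ ⊥ N → N ≤ ⊥ := by
      intro N hN hNp
      have h1 : PF {p}ᶜ L (N.comap (QuotientGroup.mk' L)) := by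
        have h2 := hNp.comap (QuotientGroup.mk' L)
        rwa [MonoidHom.comap_bot, QuotientGroup.ker_mk'] at h2
      have h2 : N.comap (QuotientGroup.mk' L) ≤ L := hLmax _ (hN.comap _) (hLp.trans h1)
      intro x hx
      obtain ⟨z, rfl⟩ := hf x
      rw [Subgroup.mem_bot]
      exact (QuotientGroup.eq_one_iff z).2 (h2 hx)
    have hhQ := hhq hlenQ (M := ⊥) (R := R) inferInstance hR (PF.refl _) hRp hQ
      (fun N hN hNp => hRmax N hN bot_le hNp)
    rw [bot_sup_eq] at hhQ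
    have hRS : R ≤ S.map (QuotientGroup.mk' L) := (hHall.map _ hf).normal_le hR hRp
    set Ab := (A.map Y.subtype).map (QuotientGroup.mk' L) with hAb
    have hAbp : PF {p}ᶜ ⊥ Ab := by
      have h1 := (hAp.map Y.subtype).map (QuotientGroup.mk' L)
      rwa [Subgroup.map_bot, Subgroup.map_bot] at h1
    have hinv : Inv R Ab := by
      intro g hg x hx
      obtain ⟨_, ⟨a, ha, rfl⟩, rfl⟩ := hx
      obtain ⟨z, rfl⟩ := hf g
      have hz : z ∈ Y := hSY' (hRS hg)
      refine ⟨z * (a : Z) * z⁻¹, ⟨⟨z, hz⟩ * a * ⟨z, hz⟩⁻¹, hA.conj_mem a ha _, rfl⟩, ?_⟩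
      simp
    have hcomm := comm_of_inv (P := R) (Q := Ab) (Inv.of_normal _ hR) hinv (disj hRp hAbp)
    have hAL : A ≤ L.subgroupOf Y := by
      intro a ha
      have h1 : (QuotientGroup.mk' L) (a : Z) ∈ Ab := ⟨a, ⟨a, ha, rfl⟩, rfl⟩
      have h2 : (QuotientGroup.mk' L) (a : Z) ∈ R :=
        hhQ _ fun y hy => (hcomm y hy _ h1).symm
      have h3 := disj hRp hAbp ⟨h2, h1⟩
      exact (QuotientGroup.eq_one_iff (a : Z)).1 (Subgroup.mem_bot.1 h3)
    have h1 : FL {p} n (L.subgroupOf Y) := by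
      refine ⟨B ⊔ L.subgroupOf Y, Subgroup.sup_normal _ _, le_sup_right, ?_,
        hBlen.mono (Subgroup.sup_normal _ _) le_sup_left⟩
      have h2 := hBp.supN hLn
      rwa [sup_eq_right.2 hAL] at h2
    have h2 : Len {p} (n + 1) L := (hY' n h1).toLen hL
    exact (h2.absorb bot_le hLp).toFL inferInstance

/-- the radical step -/
lemma radical {p k : ℕ} [hp : Fact p.Prime] {Z : Type} [Group Z] [Finite Z] {S : Subgroup Z}
    (hS : IsPGroup p S) (hSi : ¬ p ∣ S.index) (L : Subgroup Z) [hL : L.Normal]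
    (hLp : PF {p}ᶜ ⊥ L) (hCL : ∀ x : Z, (∀ y ∈ L, x * y = y * x) → x ∈ L)
    (h1 : ∀ H : Subgroup Z, S ≤ H → H ≠ ⊤ → FL {p} k (⊥ : Subgroup H))
    (h2 : ¬ FL {p} k (⊥ : Subgroup Z)) : Group.IsSolvable L := by
  classical
  have hHall : IsHall {p} S :=
    ⟨PF_of_isPGroup hS, PN_compl hp.out Subgroup.index_ne_zero_of_finite hSi⟩
  have hSsol : Group.IsSolvable S := by
    have : Group.IsNilpotent S := hS.isNilpotent
    infer_instance
  obtain ⟨Rd, hR⟩ := Set.Finite.exists_maximal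
    (Set.toFinite {N : Subgroup Z | N.Normal ∧ N ≤ L ∧ Group.IsSolvable N})
    ⟨⊥, inferInstance, bot_le, inferInstance⟩
  obtain ⟨⟨hRn, hRL, hRs⟩, hRmax⟩ := hR
  by_contra hLns
  have hRne : ¬ L ≤ Rd := by
    intro h
    have : Rd = L := le_antisymm hRL h
    rw [this] at hRs
    exact hLns hRs
  have hcop : (Nat.card L).Coprime (Nat.card S) :=
    (PF.bot_iff.1 hLp).coprime' (PF.bot_iff.1 (PF_of_isPGroup hS))
  have hinvSyl := Pool.Agent.TH365.J735.invSyl Pool.Agent.TH350.J733.szConj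
  -- choice of the Sylow subgroups
  have hch : ∀ r : ℕ, ∃ Q : Subgroup Z, r.Prime → Q ≤ L ∧ IsPGroup r Q ∧ ¬ r ∣ Q.relIndex L ∧
      (∀ g ∈ S, ∀ x ∈ Q, g * x * g⁻¹ ∈ Q) ∧
      ∀ g : Z, ∃ m ∈ L, ∃ t, (∀ x ∈ Q, t * x * t⁻¹ ∈ Q) ∧ g = m * t := by
    intro r
    by_cases hr : r.Prime
    · have := Fact.mk hr
      obtain ⟨Q, hQ⟩ := hinvSyl Z L S hL hcop hSsol r
      exact ⟨Q, fun _ => hQ⟩
    · exact ⟨⊥, fun h => absurd h hr⟩
  choose Q hQ using hch
  obtain ⟨D₀, hD₀, hD₀len, hD₀min⟩ := exists_min p k Z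
  -- the main point
  have key : ∀ r : ℕ, r.Prime → ¬ Q r ≤ Rd → ∀ x ∈ S ⊓ D₀, ∀ y ∈ Rd ⊔ Q r, x * y = y * x := by
    intro r hr hrR
    obtain ⟨hQL, hQr, -, hQS, hQF⟩ := hQ r hr
    have := Fact.mk hr
    set E := Rd ⊔ Q r with hE
    have hEL : E ≤ L := sup_le hRL hQL
    have hEs : Group.IsSolvable E := solvable_sup hRn hRs hr (PF_of_isPGroup hQr)
    have hEn : ¬ E.Normal := by
      intro h
      exact hrR (le_sup_right.trans (hRmax ⟨h, hEL, hEs⟩ le_sup_left))
    set H := Subgroup.normalizer (E : Set Z) with hH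
    -- elements normalising `Q r` normalise `E`
    have hmemH : ∀ t : Z, (∀ x ∈ Q r, t * x * t⁻¹ ∈ Q r) → t ∈ H := by
      intro t ht
      have h3 : E.map (MulAut.conj t).toMonoidHom ≤ E := by
        rw [hE, Subgroup.map_sup]
        refine sup_le_sup ?_ ?_
        · rintro _ ⟨x, hx, rfl⟩
          exact hRn.conj_mem x hx t
        · rintro _ ⟨x, hx, rfl⟩
          exact ht x hx
      have h4 : E.map (MulAut.conj t).toMonoidHom = E := by
        apply Subgroup.eq_of_le_of_card_ge h3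
        rw [Subgroup.card_map_of_injective (MulAut.conj t).injective]
      rw [hH, Subgroup.mem_normalizer_iff]
      intro x
      constructor
      · intro hx
        exact h3 ⟨x, hx, rfl⟩
      · intro hx
        change t * x * t⁻¹ ∈ E at hx
        rw [← h4] at hx
        obtain ⟨y, hy, hyx⟩ := hx
        have h5 : t * y * t⁻¹ = t * x * t⁻¹ := hyx
        have h6 : y = x := by
          have h7 := congrArg (fun z => t⁻¹ * z * t) h5
          simpa [mul_assoc] using h7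
        rw [← h6]; exact hy
    have hSH : S ≤ H := fun s hs => hmemH s (hQS s hs)
    have hEH : E ≤ H := Subgroup.le_normalizer
    have hHE : Inv H E := fun g hg x hx => (Subgroup.mem_normalizer_iff.1 hg x).1 hx
    have hHne : H ≠ ⊤ := by
      intro h
      apply hEn
      refine ⟨fun x hx g => ?_⟩
      exact hHE g (by rw [h]; trivial) x hx
    obtain ⟨Z₀, hZ₀, -, hZ₀p, hZ₀len⟩ := h1 H hSH hHne
    set K := Z₀.map H.subtype with hK
    have hKS : K ≤ S := by
      have h3 : Z₀ ≤ S.subgroupOf H := (hHall.subgroupOf hSH).normal_le hZ₀ hZ₀p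
      rintro _ ⟨x, hx, rfl⟩
      exact h3 hx
    have hKp : PF {p} ⊥ K := (PF_of_isPGroup hS).mono le_rfl hKS
    have hHK : Inv H K := by
      rintro g hg _ ⟨x, hx, rfl⟩
      exact ⟨⟨g, hg⟩ * x * ⟨g, hg⟩⁻¹, hZ₀.conj_mem x hx _, rfl⟩
    have hKH : K ≤ H := hKS.trans hSH
    -- `K` centralises `E`
    have hEp : PF {p}ᶜ ⊥ E := hLp.mono le_rfl hEL
    have hcomm := comm_of_inv (P := K) (Q := E) (hHK.mono hEH) (hHE.mono hKH) (disj hKp hEp)
    -- `L K` is normal
    have hLK : (L ⊔ K).Normal := by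
      refine ⟨fun x hx g => ?_⟩
      obtain ⟨m, hm, t, ht, rfl⟩ := hQF g
      have h3 : Inv H (L ⊔ K) := (Inv.of_normal H hL).sup hHK
      have h4 := h3 t (hmemH t ht) x hx
      have h5 : m * t * x * (m * t)⁻¹ = m * (t * x * t⁻¹) * m⁻¹ := by group
      rw [h5]
      exact (L ⊔ K).mul_mem ((L ⊔ K).mul_mem (Subgroup.mem_sup_left hm) h4)
        ((L ⊔ K).inv_mem (Subgroup.mem_sup_left hm))
    have hlenLK : Len {p} k (L ⊔ K) := by
      refine Len.of_supplement (T := H) hLK (fun g => ?_) ?_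
      · obtain ⟨m, hm, t, ht, rfl⟩ := hQF g
        exact ⟨m, Subgroup.mem_sup_left hm, t, hmemH t ht, rfl⟩
      · refine hZ₀len.mono (hLK.comap _) ?_
        intro x hx
        exact Subgroup.mem_sup_right ⟨x, hx, rfl⟩
    have hD₀LK : D₀ ≤ L ⊔ K := hD₀min _ (LM.of_Len hLK hlenLK)
    intro x hx y hy
    have h3 : x ∈ K ⊔ L := by rw [sup_comm]; exact hD₀LK hx.2
    obtain ⟨c, hc, l, hl, rfl⟩ := (mem_sup_inv (Inv.of_normal K hL)).1 h3
    have h4 : l ∈ S ⊓ L := by
      refine ⟨?_, hl⟩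
      have := S.mul_mem (S.inv_mem (hKS hc)) hx.1
      simpa using this
    have h5 : l = 1 := Subgroup.mem_bot.1 (disj (PF_of_isPGroup hS) hLp h4)
    rw [h5, mul_one]
    exact hcomm c hc y hy
  -- some Sylow subgroup is not in `Rd`
  obtain ⟨r₀, hr₀, hr₀R⟩ : ∃ r : ℕ, r.Prime ∧ ¬ Q r ≤ Rd := by
    by_contra hcon
    push Not at hcon
    exact hRne (le_of_sylow (Q := Q) (fun r hr => (hQ r hr).2.2.1) hcon)
  have hbot : S ⊓ D₀ ≤ ⊥ := by
    intro x hx
    have h3 : L ≤ Subgroup.centralizer ({x} : Set Z) := by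
      refine le_of_sylow (Q := Q) (fun r hr => (hQ r hr).2.2.1) fun r hr => ?_
      intro y hy
      rw [Subgroup.mem_centralizer_singleton_iff]
      by_cases h : Q r ≤ Rd
      · exact (key r₀ hr₀ hr₀R x hx y (Subgroup.mem_sup_left (h hy))).symm
      · exact (key r hr h x hx y (Subgroup.mem_sup_right hy)).symm
    have h4 : x ∈ L := by
      apply hCL
      intro y hy
      exact (Subgroup.mem_centralizer_singleton_iff.1 (h3 hy)).symm
    exact disj (PF_of_isPGroup hS) hLp ⟨hx.1, h4⟩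
  apply h2
  have h3 : PF {p}ᶜ ⊥ D₀ := hHall.PF_inf hD₀ (Inv.bot _) hbot
  exact (hD₀len.absorb bot_le h3).toFL inferInstance

theorem mst (p : ℕ) [hp : Fact p.Prime] (N : ℕ) : ∀ (Z : Type) [Group Z] [Finite Z],
    Nat.card Z ≤ N → ∀ n0, Len {p} n0 (⊥ : Subgroup Z) → Mst p Z := by
  classical
  induction N with
  | zero => intro Z _ _ h; have := Nat.card_pos (α := Z); omega
  | succ N ih =>
    intro Z _ _ hcard n0 hlen S hS hSi
    -- induction for proper subgroups
    have ihH : ∀ H : Subgroup Z, H ≠ ⊤ → Mst p H := by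
      intro H hH
      refine ih H ?_ n0 (Len.inj H.subtype H.subtype_injective hlen)
      have h1 : Nat.card H < Nat.card Z := by
        have h2 := H.card_mul_index
        have h3 : H.index ≠ 1 := fun h => hH (Subgroup.index_eq_one.1 h)
        have h4 : H.index ≠ 0 := Subgroup.index_ne_zero_of_finite
        have h5 : 0 < Nat.card H := Nat.card_pos
        have h6 : 2 ≤ H.index := by omega
        nlinarith
      omega
    have ihQ : ∀ (M : Subgroup Z) [M.Normal], M ≠ ⊥ → Mst p (Z ⧸ M) := by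
      intro M _ hM
      refine ih (Z ⧸ M) ?_ n0 ?_
      · have h2 := M.card_mul_index
        have h1 : Nat.card M ≠ 1 := fun h => hM (Subgroup.card_eq_one.1 h)
        have h3 : 0 < Nat.card M := Nat.card_pos
        have h4 : M.index ≠ 0 := Subgroup.index_ne_zero_of_finite
        have h5 : M.index = Nat.card (Z ⧸ M) := rfl
        have h6 : 2 ≤ Nat.card M := by omega
        have h7 : 0 < M.index := Nat.pos_of_ne_zero h4
        rw [← h5]
        have h8 : M.index < Nat.card Z := by nlinarith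
        omega
      · have h1 := hlen.map _ (QuotientGroup.mk'_surjective M)
        rwa [Subgroup.map_bot] at h1
    by_cases hA : ∃ H : Subgroup Z, S ≤ H ∧ H ≠ ⊤ ∧
        ∀ n, FL {p} n (⊥ : Subgroup H) → FL {p} n (⊥ : Subgroup Z)
    · obtain ⟨H, hSH, hHne, hH⟩ := hA
      exact caseA hS hSi H hSH (ihH H hHne) hH
    · have hnone : ∀ H : Subgroup Z, S ≤ H → H ≠ ⊤ → ∃ n, FL {p} n (⊥ : Subgroup H) ∧
          ¬ FL {p} n (⊥ : Subgroup Z) := by
        intro H hSH hHne
        by_contra hcon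
        push Not at hcon
        exact hA ⟨H, hSH, hHne, hcon⟩
      have hex : ∃ n, FL {p} n (⊥ : Subgroup Z) := ⟨n0, hlen.toFL inferInstance⟩
      obtain ⟨m, hm, hmmin⟩ : ∃ m, FL {p} m (⊥ : Subgroup Z) ∧
          ∀ n < m, ¬ FL {p} n (⊥ : Subgroup Z) :=
        ⟨Nat.find hex, Nat.find_spec hex, fun n hn => Nat.find_min hex hn⟩
      rcases m with _ | k
      · -- `m = 0`
        have hStop : S = ⊤ := by
          by_contra hne
          obtain ⟨n, -, hn⟩ := hnone S le_rfl hne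
          exact hn (FL.mono_n hm (Nat.zero_le n))
        refine ⟨S, le_rfl, ?_, fun n _ => FL.mono_n hm (Nat.zero_le n)⟩
        have : Group.IsNilpotent S := hS.isNilpotent
        infer_instance
      · have h2 : ¬ FL {p} k (⊥ : Subgroup Z) := hmmin k (Nat.lt_succ_self k)
        have h1 : ∀ H : Subgroup Z, S ≤ H → H ≠ ⊤ → FL {p} k (⊥ : Subgroup H) := by
          intro H hSH hHne
          obtain ⟨n, hn, hn'⟩ := hnone H hSH hHne
          have h3 : n ≤ k := by
            by_contra h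
            exact hn' (FL.mono_n hm (by omega))
          exact FL.mono_n hn h3
        by_cases hOp : ∃ M : Subgroup Z, M.Normal ∧ PF {p} ⊥ M ∧ M ≠ ⊥
        · -- a nontrivial normal `p`-subgroup
          obtain ⟨M, hM, hMp, hMne⟩ := hOp
          obtain ⟨Y', hSY, hY's, -, hY'⟩ := quot_step hS hSi M (ihQ M hMne)
          have hMs : Group.IsSolvable M := by
            have : Group.IsNilpotent M := (isPGroup_of_PF hMp).isNilpotent
            infer_instance
          refine ⟨Y'.comap (QuotientGroup.mk' M), hSY, solvable_comap M hMs hY's, fun n hn => ?_⟩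
          have h3 : FL {p} n (M.subgroupOf (Y'.comap (QuotientGroup.mk' M))) :=
            hn.mono (hM.comap _) bot_le
          exact (hY' n h3).absorb bot_le hMp
        · have hOp' : ∀ M : Subgroup Z, M.Normal → PF {p} ⊥ M → M ≤ ⊥ := by
            intro M hM hMp
            by_contra hne
            exact hOp ⟨M, hM, hMp, fun h => hne h.le⟩
          obtain ⟨L, hL, -, hLp, hLmax⟩ := exists_core {p}ᶜ (⊥ : Subgroup Z) inferInstance
          have hCL : ∀ x : Z, (∀ y ∈ L, x * y = y * x) → x ∈ L := by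
            have h3 := hhq hlen (M := L) (R := ⊥) hL inferInstance hLp (PF.refl _)
              (fun N hN hNp => hLmax N hN bot_le hNp) hOp'
            rwa [sup_bot_eq] at h3
          have hLne : L ≠ ⊥ := by
            rintro rfl
            apply h2
            have h3 : (⊥ : Subgroup Z) = ⊤ := by
              rw [eq_top_iff]
              intro x _
              apply hCL
              intro y hy
              rw [Subgroup.mem_bot.1 hy, mul_one, one_mul]
            rw [h3]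
            exact FL.top k
          obtain ⟨Y', hSY, hY's, hSY', hY'⟩ := quot_step hS hSi L (ihQ L hLne)
          have hcl := claimY hlen hS hSi L hLp (fun A hA hAp => hLmax A hA bot_le hAp) hCL Y' hSY
            hSY' hY'
          have hYtop : Y'.comap (QuotientGroup.mk' L) = ⊤ := by
            by_contra hne
            obtain ⟨n, hn, hn'⟩ := hnone _ hSY hne
            exact hn' (hcl n hn)
          have hLs : Group.IsSolvable L := radical hS hSi L hLp hCL h1 h2
          have hs := solvable_comap L hLs hY's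
          exact ⟨_, hSY, hs, hcl⟩

theorem m : S_M := by
  intro p hp Z _ _ n0 hlen S hS hSi
  exact mst p (Nat.card Z) Z le_rfl n0 hlen S hS hSi

end Pool.Agent.Helper736_Rae
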