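import Pool.Agent.Helper867_Rae.Base2
import Pool.Agent.Helper867_Rae.Stmts

set_option autoImplicit false

/-! Section 6: the choice of the chief factor `L₁/L₂` (`S_R`). -/

namespace Pool.Agent.Helper736_Rae

open Pool.Agent.TH62.PL Pool.Agent.Helper867_Rae
open scoped commutatorElement

/-- a minimal normal subgroup of a finite solvable group is elementary abelian -/
lemma min_normal {Q : Type} [Group Q] [Finite Q] (hQ : Group.IsSolvable Q) {M : Subgroup Q}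
    (hM : M.Normal) (hne : M ≠ ⊥) (hmin : ∀ Y : Subgroup Q, Y.Normal → Y ≤ M → Y = M ∨ Y = ⊥) :
    ∃ r : ℕ, r.Prime ∧ (∀ x ∈ M, ∀ y ∈ M, x * y = y * x) ∧ ∀ x ∈ M, x ^ r = 1 := by
  have hab : ⁅M, M⁆ = ⊥ := by
    have h1 : ⁅M, M⁆ < M := Group.IsSolvable.commutator_lt_of_ne_bot hne
    rcases hmin ⁅M, M⁆ inferInstance h1.le with h | h
    · exact absurd h h1.ne
    · exact h
  have hcomm : ∀ x ∈ M, ∀ y ∈ M, x * y = y * x := by
    intro x hx y hy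
    have h1 := Subgroup.commutator_mem_commutator hx hy
    rw [hab, Subgroup.mem_bot, commutatorElement_def] at h1
    have h2 : x * y = (x * y * x⁻¹ * y⁻¹) * (y * x) := by group
    rw [h2, h1, one_mul]
  have hcard : Nat.card M ≠ 1 := fun h => hne (Subgroup.card_eq_one.1 h)
  obtain ⟨r, hr, hrM⟩ := Nat.exists_prime_and_dvd hcard
  have := Fact.mk hr
  obtain ⟨x, hx⟩ := exists_prime_orderOf_dvd_card' r hrM
  let R : Subgroup Q :=
    { carrier := {y | y ∈ M ∧ y ^ r = 1}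
      one_mem' := ⟨M.one_mem, one_pow _⟩
      mul_mem' := by
        rintro a b ⟨ha, ha'⟩ ⟨hb, hb'⟩
        refine ⟨M.mul_mem ha hb, ?_⟩
        have hc : Commute a b := hcomm a ha b hb
        rw [hc.mul_pow, ha', hb', one_mul]
      inv_mem' := by
        rintro a ⟨ha, ha'⟩
        exact ⟨M.inv_mem ha, by rw [inv_pow, ha', inv_one]⟩ }
  have hRn : R.Normal := ⟨by
    rintro a ⟨ha, ha'⟩ g
    exact ⟨hM.conj_mem a ha g, by rw [conj_pow, ha', mul_one, mul_inv_cancel]⟩⟩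
  refine ⟨r, hr, hcomm, ?_⟩
  rcases hmin R hRn (fun y hy => hy.1) with h | h
  · intro y hy
    rw [← h] at hy
    exact hy.2
  · exfalso
    have h1 : (x : Q) ∈ R := by
      refine ⟨x.2, ?_⟩
      have h2 : x ^ r = 1 := by rw [← hx]; exact pow_orderOf_eq_one x
      have h3 := congrArg Subtype.val h2
      simpa using h3
    rw [h, Subgroup.mem_bot] at h1
    have h3 : x = 1 := Subtype.ext h1
    rw [h3, orderOf_one] at hx
    exact hr.one_lt.ne hx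

/-- a chief factor of a finite solvable group is elementary abelian -/
lemma chief_elem {X : Type} [Group X] [Finite X] (hX : Group.IsSolvable X) {N M : Subgroup X}
    (hN : N.Normal) (hM : M.Normal) (hNM : N ≤ M) (hne : N ≠ M)
    (hch : ∀ Y : Subgroup X, Y.Normal → N ≤ Y → Y ≤ M → Y = M ∨ Y = N) :
    ∃ r : ℕ, r.Prime ∧ (∀ x ∈ M, ∀ y ∈ M, x * y * x⁻¹ * y⁻¹ ∈ N) ∧ (∀ x ∈ M, x ^ r ∈ N) := by
  have hf : Function.Surjective (QuotientGroup.mk' N) := QuotientGroup.mk'_surjective N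
  have hMn : (M.map (QuotientGroup.mk' N)).Normal := hM.map _ hf
  have hMne : M.map (QuotientGroup.mk' N) ≠ ⊥ := by
    intro h
    rw [Subgroup.map_eq_bot_iff, QuotientGroup.ker_mk'] at h
    exact hne (le_antisymm hNM h)
  have hQ : Group.IsSolvable (X ⧸ N) := inferInstance
  obtain ⟨r, hr, h1, h2⟩ := min_normal hQ hMn hMne (by
    intro Y hY hYM
    have h1 : (Y.comap (QuotientGroup.mk' N)).Normal := hY.comap _
    have h2 : N ≤ Y.comap (QuotientGroup.mk' N) := by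
      intro x hx
      have : (QuotientGroup.mk' N) x = 1 := (QuotientGroup.eq_one_iff x).2 hx
      rw [Subgroup.mem_comap, this]; exact Y.one_mem
    have h3 : Y.comap (QuotientGroup.mk' N) ≤ M := by
      have h4 : (M.map (QuotientGroup.mk' N)).comap (QuotientGroup.mk' N) = M := by
        rw [Subgroup.comap_map_eq, QuotientGroup.ker_mk', sup_eq_left.2 hNM]
      rw [← h4]; exact Subgroup.comap_mono hYM
    rcases hch _ h1 h2 h3 with h | h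
    · left
      rw [← h, Subgroup.map_comap_eq_self_of_surjective hf]
    · right
      rw [← Subgroup.map_comap_eq_self_of_surjective hf Y, h, Subgroup.map_eq_bot_iff,
        QuotientGroup.ker_mk'])
  refine ⟨r, hr, ?_, ?_⟩
  · intro a ha b hb
    rw [← QuotientGroup.eq_one_iff]
    have h3 := h1 _ ⟨a, ha, rfl⟩ _ ⟨b, hb, rfl⟩
    change (QuotientGroup.mk' N) (a * b * a⁻¹ * b⁻¹) = 1
    rw [map_mul, map_mul, map_mul, map_inv, map_inv, h3]; group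
  · intro a ha
    rw [← QuotientGroup.eq_one_iff]
    have h3 := h2 _ ⟨a, ha, rfl⟩
    change (QuotientGroup.mk' N) (a ^ r) = 1
    rw [map_pow]; exact h3

/-- chief factor just above `N` -/
lemma exists_above {X : Type} [Group X] [Finite X] {N M : Subgroup X}
    (hM : M.Normal) (hNM : N ≤ M) (hne : N ≠ M) :
    ∃ A : Subgroup X, A.Normal ∧ N ≤ A ∧ A ≤ M ∧ N ≠ A ∧
      ∀ Y : Subgroup X, Y.Normal → N ≤ Y → Y ≤ A → Y = A ∨ Y = N := by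
  classical
  obtain ⟨A, hA⟩ := Set.Finite.exists_minimal
    (Set.toFinite {A : Subgroup X | A.Normal ∧ N ≤ A ∧ A ≤ M ∧ N ≠ A}) ⟨M, hM, hNM, le_rfl, hne⟩
  refine ⟨A, hA.1.1, hA.1.2.1, hA.1.2.2.1, hA.1.2.2.2, fun Y hY hNY hYA => ?_⟩
  by_cases h : N = Y
  · exact Or.inr h.symm
  · exact Or.inl (le_antisymm hYA (hA.2 ⟨hY, hNY, hYA.trans hA.1.2.2.1, h⟩ hYA))

/-- chief factor just below `M` -/
lemma exists_below {X : Type} [Group X] [Finite X] {N M : Subgroup X}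
    (hN : N.Normal) (hNM : N ≤ M) (hne : N ≠ M) :
    ∃ A : Subgroup X, A.Normal ∧ N ≤ A ∧ A ≤ M ∧ A ≠ M ∧
      ∀ Y : Subgroup X, Y.Normal → A ≤ Y → Y ≤ M → Y = M ∨ Y = A := by
  classical
  obtain ⟨A, hA⟩ := Set.Finite.exists_maximal
    (Set.toFinite {A : Subgroup X | A.Normal ∧ N ≤ A ∧ A ≤ M ∧ A ≠ M}) ⟨N, hN, le_rfl, hNM, hne⟩
  refine ⟨A, hA.1.1, hA.1.2.1, hA.1.2.2.1, hA.1.2.2.2, fun Y hY hAY hYM => ?_⟩
  by_cases h : Y = M
  · exact Or.inl h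
  · exact Or.inr (le_antisymm (hA.2 ⟨hY, hA.1.2.1.trans hAY, hYM, h⟩ hAY) hAY)

/-- coprime powers -/
lemma mem_of_coprime_pow {X : Type} [Group X] {N : Subgroup X} {w : X} {m n : ℕ}
    (hc : m.Coprime n) (h1 : w ^ m ∈ N) (h2 : w ^ n ∈ N) : w ∈ N := by
  have h3 : w ^ (1 : ℤ) ∈ N := by
    have h4 : (1 : ℤ) = m * Nat.gcdA m n + n * Nat.gcdB m n := by
      rw [← Nat.gcd_eq_gcd_ab, hc]; rfl
    rw [h4, zpow_add, zpow_mul, zpow_mul, zpow_natCast, zpow_natCast]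
    exact N.mul_mem (N.zpow_mem h1 _) (N.zpow_mem h2 _)
  simpa using h3

/-- the Frattini argument for a Sylow subgroup `S ⊓ A₁` of the normal subgroup `A₁` -/
lemma frattini {p : ℕ} [hp : Fact p.Prime] {X : Type} [Group X] [Finite X] {S A₁ : Subgroup X}
    (hS : IsPGroup p S) (hSi : ¬ p ∣ S.index) (hA₁ : A₁.Normal) (g : X) :
    ∃ t a, a ∈ A₁ ∧ g = t * a ∧ (∀ x, x ∈ S ⊓ A₁ ↔ t * x * t⁻¹ ∈ S ⊓ A₁) := by
  have h1 : IsPGroup p ((S ⊓ A₁).subgroupOf A₁) := by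
    have h2 : IsPGroup p (S ⊓ A₁ : Subgroup X) := hS.to_le inf_le_left
    exact h2.comap_subtype
  have h2 : ¬ p ∣ ((S ⊓ A₁).subgroupOf A₁).index := by
    intro h
    apply hSi
    refine h.trans ?_
    change (S ⊓ A₁).relIndex A₁ ∣ S.index
    rw [Subgroup.inf_relIndex_right]
    exact relIndex_dvd_index S A₁ hA₁
  let T : Sylow p A₁ := h1.toSylow h2
  have hT : (T : Subgroup A₁).map A₁.subtype = S ⊓ A₁ := by
    change ((S ⊓ A₁).subgroupOf A₁).map A₁.subtype = S ⊓ A₁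
    exact Subgroup.map_subgroupOf_eq_of_le inf_le_right
  have h3 := Sylow.normalizer_sup_eq_top T
  rw [hT] at h3
  have h4 : g ∈ Subgroup.normalizer ((S ⊓ A₁ : Subgroup X) : Set X) ⊔ A₁ := by rw [h3]; trivial
  obtain ⟨t, ht, a, ha, rfl⟩ := (mem_sup_inv (Inv.of_normal _ hA₁)).1 h4
  exact ⟨t, a, ha, rfl, fun x => Subgroup.mem_normalizer_iff.1 ht x⟩

theorem r : S_R := by
  classical
  intro p hp X _ _ hX S D hS hSi hD hFL
  have hHall : IsHall {p} S := ⟨PF_of_isPGroup hS, PN_compl hp.out Subgroup.index_ne_zero_of_finite hSi⟩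
  obtain ⟨R, hR, -, hRp, hRmax⟩ := exists_core {p} (⊥ : Subgroup X) inferInstance
  -- `O = O_p(D)`
  obtain ⟨O, hO, hOD, hOp, hOmax⟩ : ∃ O : Subgroup X, O.Normal ∧ O ≤ D ∧ PF {p} ⊥ O ∧
      ∀ A : Subgroup X, A.Normal → A ≤ D → PF {p} ⊥ A → A ≤ O :=
    ⟨R ⊓ D, Subgroup.normal_inf_normal R D, inf_le_right, hRp.mono le_rfl inf_le_left,
      fun A hA hAD hAp => le_inf (hRmax A hA bot_le hAp) hAD⟩
  obtain ⟨R', hR', hOR', hR'p, hR'max⟩ := exists_core {p}ᶜ O hO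
  -- `L/O = O_p'(D/O)`
  obtain ⟨L, hL, hOL, hLD, hLp, hLmax⟩ : ∃ L : Subgroup X, L.Normal ∧ O ≤ L ∧ L ≤ D ∧
      PF {p}ᶜ O L ∧ ∀ A : Subgroup X, A.Normal → O ≤ A → A ≤ D → PF {p}ᶜ O A → A ≤ L :=
    ⟨R' ⊓ D, Subgroup.normal_inf_normal R' D, le_inf hOR' hOD, inf_le_right,
      hR'p.mono le_rfl inf_le_left, fun A hA hOA hAD hAp => le_inf (hR'max A hA hOA hAp) hAD⟩
  have hLne : L ≠ D := by
    intro h
    apply hFL
    refine ⟨O.subgroupOf D, hO.comap _, bot_le, ?_, ?_⟩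
    · have h1 := hOp.comap D.subtype
      rwa [MonoidHom.comap_bot, Subgroup.ker_subtype] at h1
    · intro x _
      obtain ⟨m, hm, hm'⟩ := hLp x (h ▸ x.2)
      exact ⟨m, hm, hm'⟩
  obtain ⟨A₁, hA₁, hLA₁, hA₁D, hLA₁ne, hA₁ch⟩ := exists_above hD hLD hLne
  obtain ⟨r, hr, hA₁ab, hA₁pow⟩ := chief_elem hX hL hA₁ hLA₁ hLA₁ne hA₁ch
  have hrp : r = p := by
    by_contra hne
    apply hLA₁ne
    refine le_antisymm hLA₁ (hLmax A₁ hA₁ (hOL.trans hLA₁) hA₁D (hLp.trans ?_))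
    intro x hx
    exact ⟨r, PN.prime hr hne, hA₁pow x hx⟩
  subst hrp
  have hPFA₁ : PF {r} L A₁ := fun x hx => ⟨r, PN.prime hr rfl, hA₁pow x hx⟩
  have hsup : A₁ ≤ S ⊔ L := hHall.normal_le_sup hL hA₁ hPFA₁
  have hOS : O ≤ S := hHall.normal_le hO hOp
  -- decomposition of the elements of `A₁`
  have hdec : ∀ x ∈ A₁, ∃ a ∈ S ⊓ A₁, ∃ l ∈ L, x = a * l := by
    intro x hx
    obtain ⟨s, hs, l, hl, rfl⟩ := (mem_sup_inv (Inv.of_normal S hL)).1 (hsup hx)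
    refine ⟨s, ⟨hs, ?_⟩, l, hl, rfl⟩
    have := A₁.mul_mem hx (A₁.inv_mem (hLA₁ hl))
    simpa [mul_assoc] using this
  -- `[L, A] ≤ O` fails
  have hLA : ¬ ∀ a ∈ S ⊓ A₁, ∀ l ∈ L, a * l * a⁻¹ * l⁻¹ ∈ O := by
    intro h
    have hOA : O ≤ S ⊓ A₁ := le_inf hOS (hOL.trans hLA₁)
    have hInv : Inv A₁ (S ⊓ A₁) := by
      intro g hg x hx
      obtain ⟨a, ha, l, hl, rfl⟩ := hdec g hg
      have h1 : (x * l * x⁻¹ * l⁻¹)⁻¹ ∈ S ⊓ A₁ := (S ⊓ A₁).inv_mem (hOA (h x hx l hl))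
      have h2 : a * l * x * (a * l)⁻¹ = a * ((x * l * x⁻¹ * l⁻¹)⁻¹ * x) * a⁻¹ := by group
      rw [h2]
      exact (S ⊓ A₁).mul_mem ((S ⊓ A₁).mul_mem ha ((S ⊓ A₁).mul_mem h1 hx)) ((S ⊓ A₁).inv_mem ha)
    have hPF : PF {r}ᶜ (S ⊓ A₁) A₁ := by
      rw [PF.iff_relIndex hInv, Subgroup.inf_relIndex_right]
      exact hHall.inf hA₁
    have hn : (S ⊓ A₁).Normal := by
      refine ⟨fun x hx g => ?_⟩
      have h1 : (S ⊓ A₁).map (MulAut.conj g).toMonoidHom ≤ S ⊓ A₁ := by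
        apply PF.le_of_compl (σ := {r})
        · have h2 : PF {r} ⊥ (S ⊓ A₁) := (PF_of_isPGroup hS).mono le_rfl inf_le_left
          have h3 := h2.map (MulAut.conj g).toMonoidHom
          rw [Subgroup.map_bot] at h3
          exact h3.mono bot_le le_rfl
        · refine hPF.mono le_rfl ?_
          rintro _ ⟨y, hy, rfl⟩
          exact hA₁.conj_mem y hy.2 g
      exact h1 ⟨x, hx, rfl⟩
    have h3 : S ⊓ A₁ ≤ O := hOmax _ hn (inf_le_right.trans hA₁D)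
      ((PF_of_isPGroup hS).mono le_rfl inf_le_left)
    apply hLA₁ne
    refine le_antisymm hLA₁ ?_
    intro x hx
    obtain ⟨a, ha, l, hl, rfl⟩ := hdec x hx
    exact L.mul_mem (hOL (h3 ha)) hl
  -- the normal subgroup `L₁`
  obtain ⟨L₁, hL₁⟩ := Set.Finite.exists_minimal
    (Set.toFinite {M : Subgroup X | M.Normal ∧ O ≤ M ∧ ∀ a ∈ S ⊓ A₁, ∀ l ∈ L,
      a * l * a⁻¹ * l⁻¹ ∈ M}) ⟨L, hL, hOL, fun a _ l hl =>
        L.mul_mem (hL.conj_mem l hl a) (L.inv_mem hl)⟩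
  obtain ⟨⟨hL₁n, hOL₁, hL₁c⟩, hL₁min⟩ := hL₁
  have hL₁L : L₁ ≤ L := by
    have h1 : L₁ ⊓ L ∈ {M : Subgroup X | M.Normal ∧ O ≤ M ∧ ∀ a ∈ S ⊓ A₁, ∀ l ∈ L,
        a * l * a⁻¹ * l⁻¹ ∈ M} :=
      ⟨Subgroup.normal_inf_normal L₁ L, le_inf hOL₁ hOL, fun a ha l hl =>
        ⟨hL₁c a ha l hl, L.mul_mem (hL.conj_mem l hl a) (L.inv_mem hl)⟩⟩
    exact (hL₁min h1 inf_le_left).trans inf_le_right
  have hOL₁ne : O ≠ L₁ := by
    intro h
    exact hLA (by rw [h]; exact hL₁c)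
  obtain ⟨L₂, hL₂n, hOL₂, hL₂L₁, hL₂ne, hL₂ch⟩ := exists_below hO hOL₁ hOL₁ne
  obtain ⟨q, hq, hab, hpow⟩ := chief_elem hX hL₂n hL₁n hL₂L₁ hL₂ne hL₂ch
  have hL₂not : ¬ ∀ a ∈ S ⊓ A₁, ∀ l ∈ L, a * l * a⁻¹ * l⁻¹ ∈ L₂ := by
    intro h
    exact hL₂ne (le_antisymm hL₂L₁ (hL₁min ⟨hL₂n, hOL₂, h⟩ hL₂L₁))
  have hqr : q ≠ r := by
    rintro rfl
    apply hL₂ne
    refine le_antisymm hL₂L₁ (PF.le_of_compl (σ := {q}) ?_ ?_)
    · intro x hx
      exact ⟨q, PN.prime hq rfl, hpow x hx⟩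
    · exact hLp.mono hOL₂ hL₁L
  -- `A` does not centralise `L₁/L₂`
  have hAV : ¬ ∀ a ∈ S ⊓ A₁, ∀ v ∈ L₁, a * v * a⁻¹ * v⁻¹ ∈ L₂ := by
    intro h
    apply hL₂not
    intro a ha l hl
    set w := a * l * a⁻¹ * l⁻¹ with hw
    have hwL₁ : w ∈ L₁ := hL₁c a ha l hl
    have key : ∀ n : ℕ, ∃ z ∈ L₂, a ^ n * l * (a ^ n)⁻¹ = z * w ^ n * l := by
      intro n
      induction n with
      | zero => exact ⟨1, L₂.one_mem, by simp⟩
      | succ n ih =>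
        obtain ⟨z, hz, he⟩ := ih
        refine ⟨(a * z * a⁻¹) * (a * w ^ n * a⁻¹ * (w ^ n)⁻¹),
          L₂.mul_mem (hL₂n.conj_mem z hz a) (h a ha _ (L₁.pow_mem hwL₁ n)), ?_⟩
        have h1 : a ^ (n + 1) * l * (a ^ (n + 1))⁻¹ = a * (a ^ n * l * (a ^ n)⁻¹) * a⁻¹ := by
          rw [pow_succ']; group
        rw [h1, he, pow_succ]
        have h2 : a * l * a⁻¹ = w * l := by rw [hw]; group
        calc a * (z * w ^ n * l) * a⁻¹ = (a * z * a⁻¹) * (a * w ^ n * a⁻¹) * (a * l * a⁻¹) := by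
              group
          _ = (a * z * a⁻¹) * (a * w ^ n * a⁻¹) * (w * l) := by rw [h2]
          _ = _ := by group
    obtain ⟨k, hk⟩ := hS ⟨a, ha.1⟩
    have hak : a ^ (r ^ k) = 1 := by
      have := congrArg Subtype.val hk
      simpa using this
    obtain ⟨z, hz, he⟩ := key (r ^ k)
    rw [hak, one_mul, inv_one, mul_one] at he
    have h3 : w ^ (r ^ k) = z⁻¹ := by
      have h4 : z * w ^ (r ^ k) = 1 := by
        have h5 : z * w ^ (r ^ k) * l = 1 * l := by rw [one_mul]; exact he.symm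
        exact mul_right_cancel h5
      exact (eq_inv_of_mul_eq_one_right h4)
    refine mem_of_coprime_pow (m := r ^ k) (n := q) ?_ (by rw [h3]; exact L₂.inv_mem hz)
      (hpow w hwL₁)
    exact Nat.Coprime.pow_left k ((Nat.coprime_primes hr hq).2 (Ne.symm hqr))
  -- the fixed points of `A`
  let V₀ : Subgroup X :=
    { carrier := {v | v ∈ L₁ ∧ ∀ a ∈ S ⊓ A₁, a * v * a⁻¹ * v⁻¹ ∈ L₂}
      one_mem' := ⟨L₁.one_mem, fun a _ => by simp⟩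
      mul_mem' := by
        rintro v w ⟨hv, hv'⟩ ⟨hw, hw'⟩
        refine ⟨L₁.mul_mem hv hw, fun a ha => ?_⟩
        have h1 : a * (v * w) * a⁻¹ * (v * w)⁻¹ =
            (a * v * a⁻¹ * v⁻¹) * (v * (a * w * a⁻¹ * w⁻¹) * v⁻¹) := by group
        rw [h1]
        exact L₂.mul_mem (hv' a ha) (hL₂n.conj_mem _ (hw' a ha) v)
      inv_mem' := by
        rintro v ⟨hv, hv'⟩
        refine ⟨L₁.inv_mem hv, fun a ha => ?_⟩
        have h1 : a * v⁻¹ * a⁻¹ * v⁻¹⁻¹ = v⁻¹ * (a * v * a⁻¹ * v⁻¹)⁻¹ * v⁻¹⁻¹ := by group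
        rw [h1]
        exact hL₂n.conj_mem _ (L₂.inv_mem (hv' a ha)) v⁻¹ }
  have hV₀n : V₀.Normal := by
    refine ⟨?_⟩
    rintro v ⟨hv, hv'⟩ g
    refine ⟨hL₁n.conj_mem v hv g, fun a ha => ?_⟩
    obtain ⟨t, b, hb, hgt, ht⟩ := frattini hS hSi hA₁ g
    obtain ⟨c, hc, l, hl, hbc⟩ := hdec b hb
    -- `g = (t c) l`
    have h1 : t⁻¹ * a * t ∈ S ⊓ A₁ := by
      rw [ht]
      have : t * (t⁻¹ * a * t) * t⁻¹ = a := by group
      rwa [this]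
    have h2 : c⁻¹ * (t⁻¹ * a * t) * c ∈ S ⊓ A₁ :=
      (S ⊓ A₁).mul_mem ((S ⊓ A₁).mul_mem ((S ⊓ A₁).inv_mem hc) h1) hc
    set e := c⁻¹ * (t⁻¹ * a * t) * c with he
    have h3 : g⁻¹ * a * g = l⁻¹ * e * l := by
      rw [hgt, hbc, he]; group
    -- `u = [l⁻¹, e] ∈ L₁`
    have h4 : (e * l⁻¹ * e⁻¹ * l⁻¹⁻¹)⁻¹ ∈ L₁ := L₁.inv_mem (hL₁c e h2 l⁻¹ (L.inv_mem hl))
    set u := (e * l⁻¹ * e⁻¹ * l⁻¹⁻¹)⁻¹ with hu
    have h5 : g⁻¹ * a * g = u * e := by rw [h3, hu]; group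
    have h6 : (g⁻¹ * a * g) * v * (g⁻¹ * a * g)⁻¹ * v⁻¹ ∈ L₂ := by
      rw [h5]
      have h7 : u * e * v * (u * e)⁻¹ * v⁻¹ =
          (u * (e * v * e⁻¹ * v⁻¹) * u⁻¹) * (u * v * u⁻¹ * v⁻¹) := by group
      rw [h7]
      exact L₂.mul_mem (hL₂n.conj_mem _ (hv' e h2) u) (hab u h4 v hv)
    have h8 : a * (g * v * g⁻¹) * a⁻¹ * (g * v * g⁻¹)⁻¹ =
        g * ((g⁻¹ * a * g) * v * (g⁻¹ * a * g)⁻¹ * v⁻¹) * g⁻¹ := by group
    rw [h8]
    exact hL₂n.conj_mem _ h6 g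
  have hL₂V₀ : L₂ ≤ V₀ := fun v hv => ⟨hL₂L₁ hv, fun a _ =>
    L₂.mul_mem (hL₂n.conj_mem v hv a) (L₂.inv_mem hv)⟩
  have hV₀ : V₀ = L₂ := by
    rcases hL₂ch V₀ hV₀n hL₂V₀ (fun v hv => hv.1) with h | h
    · exfalso
      apply hAV
      intro a ha v hv
      rw [← h] at hv
      exact hv.2 a ha
    · exact h
  refine ⟨q, L₁, L₂, hq, hqr, hL₁n, hL₂n, hL₂L₁, hL₂ne, hL₂ch, hab, hpow, ?_, ?_⟩
  · by_contra hcon
    apply hAV
    intro a ha v hv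
    by_contra hav
    exact hcon ⟨a, hA₁D ha.2, v, hv, hav⟩
  · intro v hv hvS
    rw [← hV₀]
    exact ⟨hv, fun a ha => hvS a ha.1⟩

end Pool.Agent.Helper736_Rae
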